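import Pool.Agent.Lib.MP_c3d375_an.Neg.H65.Core

/-!
# CRU (paper 1.6, crude form)
-/

set_option autoImplicit false

open Complex Metric Set Filter Topology ComplexConjugate

namespace C3N.H65

/-- the perturbation in the positivity of `Φ(Ĥ)` -/
noncomputable def mu1 {r : ℝ} (q : Hol r) (a e : ℝ) : Hol r :=
  ((Ca a * e ^ 2 : ℝ) : ℂ) • (1 : Hol r) + ((e : ℂ) * kap q a) • Bf a r

/-- the perturbation in the positivity of `Φ(Ĥ⁻¹)` -/
noncomputable def mu2 {r : ℝ} (q : Hol r) (a e : ℝ) : Hol r :=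
  ((Ca a * e ^ 2 : ℝ) : ℂ) • (1 : Hol r) - ((e : ℂ) * (kap q a * (nu q a)⁻¹ ^ 2)) • Bf a r

theorem val_of_nu (hNU : NUStatement) {a r : ℝ} (ha : 1 / 2 ≤ a) (ha1 : a < 1) (hr : 1 < r)
    (hr' : r ≤ (1 + a) / (2 * a)) {q : Hol r} (hq : QH q) : Val (qh q) (jj q) (qi q) := by
  obtain ⟨hρ, _, hqh, _, _, _, _, _, _, _, hz⟩ := hNU a ha ha1 r hr hr' q hq
  constructor
  · intro z h
    rw [hqh z, ← ofReal_inv, re_ofReal_mul]
    exact mul_pos (inv_pos.2 hρ) (hq.re_pos z h)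
  · intro z h
    rw [hqh z, mul_pow, ← ofReal_inv, ← ofReal_pow, re_ofReal_mul]
    exact mul_pos (pow_pos (inv_pos.2 hρ) 2) (hq.re_sq_pos z h)
  · intro z h
    exact (hz z h).2.1
  · intro z h
    exact (hz z h).1

/-- the form `cform` in terms of `h + 1 + c B` -/
theorem form_of_cform {H : Type} [NormedAddCommGroup H] [InnerProductSpace ℂ H] {r : ℝ}
    (Φ : Hol r →ₐ[ℂ] (H →L[ℂ] H)) {a e : ℝ} {h : Hol r} {κ : ℂ} (h0 : (fn h 0).re ≤ 1)
    (hC : 0 ≤ Ca a) (hκ : (a : ℂ) * e * conj (deriv (fn h) a) = e * κ) {x : H}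
    (hpos : 0 ≤ cform Φ a e h x) :
    0 ≤ (inner ℂ x (Φ (h + 1 + (((Ca a * e ^ 2 : ℝ) : ℂ) • (1 : Hol r) + ((e : ℂ) * κ) • Bf a r))
      x)).re := by
  have e1 : inner ℂ x (Φ (h + 1 + (((Ca a * e ^ 2 : ℝ) : ℂ) • (1 : Hol r) +
      ((e : ℂ) * κ) • Bf a r)) x) = inner ℂ x (Φ h x) +
      (((1 + Ca a * e ^ 2) * ‖x‖ ^ 2 : ℝ) : ℂ) + ((e : ℂ) * κ) * inner ℂ x (Φ (Bf a r) x) := by
    have hx : inner ℂ x x = ((‖x‖ ^ 2 : ℝ) : ℂ) := by
      rw [inner_self_eq_norm_sq_to_K]; push_cast; rfl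
    simp only [map_add, map_smul, map_one, ContinuousLinearMap.add_apply,
      ContinuousLinearMap.smul_apply, ContinuousLinearMap.one_apply, inner_add_right,
      inner_smul_right, hx]
    push_cast
    ring
  rw [e1, add_re, add_re, ofReal_re, ← hκ]
  have h2 : 0 ≤ (1 + Ca a * e ^ 2) * ‖x‖ ^ 2 := by positivity
  have h3 : (fn h 0).re * (1 + Ca a * e ^ 2) * ‖x‖ ^ 2 ≤ (1 + Ca a * e ^ 2) * ‖x‖ ^ 2 := by
    rw [mul_assoc]
    exact mul_le_of_le_one_left h2 h0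
  unfold cform at hpos
  linarith

theorem Ca_pos {a : ℝ} (ha1 : a < 1) : 0 < Ca a := by
  unfold Ca
  have : 0 < 1 - a := by linarith
  positivity

theorem pos1 (hNU : NUStatement) {a e r : ℝ} (ha : 1 / 2 ≤ a) (ha1 : a < 1) (hr : 1 < r)
    (hr' : r ≤ (1 + a) / (2 * a)) {H : Type} [NormedAddCommGroup H] [InnerProductSpace ℂ H]
    [CompleteSpace H] (S : Sys a e r H) {q : Hol r} (hq : QH q) (x : H) :
    0 ≤ (inner ℂ x (S.Φ ((qh q) ^ 2 + 1 + mu1 q a e) x)).re := by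
  have V := val_of_nu hNU ha ha1 hr hr' hq
  obtain ⟨hρ, _, hqh, h1, _, _, _, _, _, _, hz⟩ := hNU a ha ha1 r hr hr' q hq
  have h0r : (0 : ℂ) ∈ ball (0 : ℂ) r := mem_ball_self (by linarith)
  refine form_of_cform S.Φ ?_ (Ca_pos ha1).le ?_ (S.pos _ ?_ x)
  · rw [fn_pow _ _ h0r]
    calc _ ≤ ‖(fn (qh q) 0) ^ 2‖ := Complex.re_le_norm _
      _ = 1 := by rw [norm_pow, h1]; norm_num
  · have : fn ((qh q) ^ 2) = fun z => (fn (qh q) z) ^ 2 := by
      funext z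
      rw [pow_two, pow_two, fn_mul]
    rw [this, kap]
    ring
  · intro z h
    have h' : z ∈ ball (0 : ℂ) r := closedBall_subset_ball hr h
    rw [fn_pow _ _ h']
    exact (V.hsq z h').le

theorem a_mem {a r : ℝ} (ha : 1 / 2 ≤ a) (ha1 : a < 1) (hr : 1 < r) : (a : ℂ) ∈ ball (0 : ℂ) r := by
  rw [mem_ball_zero_iff, Complex.norm_real, Real.norm_eq_abs, abs_of_pos (by linarith)]
  linarith

theorem pos2 (hNU : NUStatement) {a e r : ℝ} (ha : 1 / 2 ≤ a) (ha1 : a < 1) (hr : 1 < r)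
    (hr' : r ≤ (1 + a) / (2 * a)) {H : Type} [NormedAddCommGroup H] [InnerProductSpace ℂ H]
    [CompleteSpace H] (S : Sys a e r H) {q : Hol r} (hq : QH q) (x : H) :
    0 ≤ (inner ℂ x (S.Φ ((qi q) ^ 2 + 1 + mu2 q a e) x)).re := by
  have V := val_of_nu hNU ha ha1 hr hr' hq
  obtain ⟨hρ, _, hqh, h1, _, _, _, _, _, _, hz⟩ := hNU a ha ha1 r hr hr' q hq
  have h0r : (0 : ℂ) ∈ ball (0 : ℂ) r := mem_ball_self (by linarith)
  have har := a_mem ha ha1 hr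
  have hmu : mu2 q a e = ((Ca a * e ^ 2 : ℝ) : ℂ) • (1 : Hol r) +
      ((e : ℂ) * (-(kap q a * (nu q a)⁻¹ ^ 2))) • Bf a r := by
    rw [mu2, mul_neg, neg_smul, sub_eq_add_neg]
  rw [hmu]
  refine form_of_cform S.Φ ?_ (Ca_pos ha1).le ?_ (S.pos _ ?_ x)
  · rw [fn_pow _ _ h0r, V.hqi 0 h0r]
    calc _ ≤ ‖(fn (qh q) 0)⁻¹ ^ 2‖ := Complex.re_le_norm _
      _ = 1 := by rw [norm_pow, norm_inv, h1]; norm_num
  · have hd : HasDerivAt (fun z => (fn (qh q) z) ^ 2)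
        (deriv (fun z => (fn (qh q) z) ^ 2) a) (a : ℂ) := by
      have : DifferentiableAt ℂ (fun z => (fn (qh q) z) ^ 2) (a : ℂ) :=
        (((fn_differentiableOn (qh q)).pow 2) a har).differentiableAt
          (isOpen_ball.mem_nhds har)
      exact this.hasDerivAt
    have hne : (fn (qh q) a) ^ 2 ≠ 0 := by
      intro h
      have := V.hsq a har
      rw [h] at this
      simp at this
    have hd2 := hd.inv hne
    have hev : fn ((qi q) ^ 2) =ᶠ[𝓝 (a : ℂ)] (fun z => (fn (qh q) z) ^ 2)⁻¹ := by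
      filter_upwards [isOpen_ball.mem_nhds har] with z h
      rw [fn_pow _ _ h, V.hqi z h, Pi.inv_apply, inv_pow]
    rw [hev.deriv_eq, hd2.deriv, kap, nu]
    simp only [map_div₀, map_neg, map_pow]
    field_simp
  · intro z h
    have h' : z ∈ ball (0 : ℂ) r := closedBall_subset_ball hr h
    rw [fn_pow _ _ h', V.hqi z h', inv_pow, inv_re]
    exact div_nonneg (V.hsq z h').le (normSq_nonneg _)

theorem mu_bound (hNU : NUStatement) {a e r : ℝ} (ha : 1 / 2 ≤ a) (ha1 : a < 1) (hr : 1 < r)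
    (hr' : r ≤ (1 + a) / (2 * a)) (he : 0 < e) (he' : e ≤ 1 / 2) {q : Hol r} (hq : QH q) {z : ℂ}
    (hz : z ∈ ball (0 : ℂ) r) :
    ‖fn (mu1 q a e) z‖ ≤ Ca a * e ∧ ‖fn (mu2 q a e) z‖ ≤ Ca a * e := by
  obtain ⟨hρ, _, hqh, h1, h2, h3, h4, h5, h6, _, hB⟩ := hNU a ha ha1 r hr hr' q hq
  obtain ⟨_, _, _, hB, _⟩ := hB z hz
  have h1a : 0 < 1 - a := by linarith
  have h1a2 : 1 - a ≤ 1 - a ^ 2 := by nlinarith
  have ha2 : 0 < 1 - a ^ 2 := by linarith
  have hC := Ca_pos ha1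
  have key : ∀ ν : ℂ, ‖ν‖ ≤ 3 / (1 - a) → 2 * a * ν.re / (1 - a ^ 2) ≤ 6 / (1 - a) ^ 2 := by
    intro ν hν
    have : ν.re ≤ 3 / (1 - a) := (Complex.re_le_norm _).trans hν
    calc 2 * a * ν.re / (1 - a ^ 2) ≤ 2 * a * (3 / (1 - a)) / (1 - a ^ 2) := by gcongr
      _ ≤ 2 * 1 * (3 / (1 - a)) / (1 - a) := by gcongr
      _ = 6 / (1 - a) ^ 2 := by field_simp; norm_num
  have hk1 : ‖kap q a‖ ≤ 6 / (1 - a) ^ 2 := h5.trans (key _ h3)
  have hk2 : ‖kap q a * (nu q a)⁻¹ ^ 2‖ ≤ 6 / (1 - a) ^ 2 := h6.trans (key _ h4)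
  have hCa : 12 / (1 - a) ^ 3 ≤ Ca a * (12 / 100) := by
    have e1 : Ca a * (12 / 100) = 12 / (1 - a) ^ 6 := by unfold Ca; ring
    rw [e1]
    apply div_le_div_of_nonneg_left (by norm_num) (by positivity)
    exact pow_le_pow_of_le_one h1a.le (by linarith) (by norm_num)
  have gen : ∀ k : ℂ, ‖k‖ ≤ 6 / (1 - a) ^ 2 → ‖((e : ℂ) * k) * fn (Bf a r) z‖ ≤
      e * (Ca a * (12 / 100)) := by
    intro k hk
    rw [norm_mul, norm_mul, Complex.norm_real, Real.norm_eq_abs, abs_of_pos he, mul_assoc]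
    calc e * (‖k‖ * ‖fn (Bf a r) z‖) ≤ e * (6 / (1 - a) ^ 2 * (2 / (1 - a))) := by gcongr
      _ = e * (12 / (1 - a) ^ 3) := by field_simp; norm_num
      _ ≤ _ := by gcongr
  have fin : Ca a * e ^ 2 + e * (Ca a * (12 / 100)) ≤ Ca a * e := by
    have : 0 ≤ Ca a * e := by positivity
    nlinarith
  have hce : ‖((Ca a * e ^ 2 : ℝ) : ℂ) * 1‖ = Ca a * e ^ 2 := by
    rw [mul_one, Complex.norm_real, Real.norm_eq_abs, abs_of_nonneg (by positivity)]
  constructor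
  · rw [mu1, fn_add, fn_smul, fn_smul, fn_one hz]
    calc _ ≤ ‖((Ca a * e ^ 2 : ℝ) : ℂ) * 1‖ + ‖((e : ℂ) * kap q a) * fn (Bf a r) z‖ :=
          norm_add_le _ _
      _ ≤ Ca a * e ^ 2 + e * (Ca a * (12 / 100)) := by rw [hce]; gcongr; exact gen _ hk1
      _ ≤ _ := fin
  · rw [mu2, fn_sub, fn_smul, fn_smul, fn_one hz]
    calc _ ≤ ‖((Ca a * e ^ 2 : ℝ) : ℂ) * 1‖ +
          ‖((e : ℂ) * (kap q a * (nu q a)⁻¹ ^ 2)) * fn (Bf a r) z‖ := norm_sub_le _ _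
      _ ≤ Ca a * e ^ 2 + e * (Ca a * (12 / 100)) := by rw [hce]; gcongr; exact gen _ hk2
      _ ≤ _ := fin

/-- CRU (Paper 1.6, crude form) -/
theorem cru_st (hP1 : P1Statement) (hGM : GMStatement) (hNU : NUStatement) : CRUStatement := by
  intro a ha ha1
  obtain ⟨e1, he1, hP1'⟩ := hP1 a ha ha1
  have hC := Ca_pos ha1
  refine ⟨11 * (2 * (Ca a + Ca a)), by positivity, min e1 (min (1 / 2) (1 / (10 * Ca a))),
    lt_min he1 (lt_min (by norm_num) (by positivity)), ?_⟩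
  intro e he hee H _ _ _ r hr hr' S p hp
  have hee1 : e < e1 := hee.trans_le (min_le_left _ _)
  have hee2 : e ≤ 1 / 2 := (hee.trans_le ((min_le_right _ _).trans (min_le_left _ _))).le
  have hee3 : Ca a * e ≤ 1 / 10 := by
    have h : e ≤ 1 / (10 * Ca a) :=
      (hee.trans_le ((min_le_right _ _).trans (min_le_right _ _))).le
    calc Ca a * e ≤ Ca a * (1 / (10 * Ca a)) := by gcongr
      _ = 1 / 10 := by field_simp
  -- scaling
  have hcont : ContinuousOn (fn p) (closedBall 0 1) :=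
    (fn_differentiableOn p).continuousOn.mono (closedBall_subset_ball hr)
  obtain ⟨B, hB⟩ := (isCompact_closedBall (0 : ℂ) 1).exists_bound_of_continuousOn hcont
  have hB0 : 0 ≤ B := (norm_nonneg _).trans (hB 0 (by simp))
  set c : ℝ := (B + 1)⁻¹ with hc
  have hc0 : 0 < c := by positivity
  set q : Hol r := (c : ℂ) • p with hq
  have hqz : ∀ z, fn q z = c * fn p z := fun z => by rw [hq, fn_smul]
  have hQ : QH q := by
    constructor
    · intro z hz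
      rw [hqz, re_ofReal_mul]
      exact mul_pos hc0 (hp z hz).1
    · intro z hz
      rw [hqz, mul_pow, ← ofReal_pow, re_ofReal_mul]
      exact mul_pos (pow_pos hc0 2) (hp z hz).2
    · intro z hz
      rw [hqz, norm_mul, Complex.norm_real, Real.norm_eq_abs, abs_of_pos hc0]
      have h1 : c * ‖fn p z‖ ≤ 1 := by
        rw [hc, inv_mul_le_iff₀ (by positivity)]
        linarith [hB z hz]
      have h0 : 0 ≤ c * ‖fn p z‖ := by positivity
      nlinarith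
  have V := val_of_nu hNU ha ha1 hr hr' hQ
  obtain ⟨hρ, _⟩ := hNU a ha ha1 r hr hr' q hQ
  have hb := fun z (hz : z ∈ ball (0 : ℂ) r) => mu_bound hNU ha ha1 hr hr' he hee2 hQ hz
  have hm₁ : ∀ z ∈ ball (0 : ℂ) r, ‖fn (mu1 q a e) z‖ ≤ 1 / 10 := fun z hz =>
    (hb z hz).1.trans hee3
  have hm₂ : ∀ z ∈ ball (0 : ℂ) r, ‖fn (mu2 q a e) z‖ ≤ 1 / 10 := fun z hz =>
    (hb z hz).2.trans hee3
  have hcore := core hGM hr S.Φ S.bdd V hm₁ hm₂ (pos1 hNU ha ha1 hr hr' S hQ)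
    (pos2 hNU ha ha1 hr hr' S hQ)
  set D : Hol r := hol r (Dfun (qh q) (jj q) (mu1 q a e) (mu2 q a e)) with hD
  refine ⟨D - 1, ?_, ?_⟩
  · have := hP1' e he hee1 H r hr hr' S (D - 1) (2 * (Ca a * e + Ca a * e)) ?_
    · calc _ ≤ _ := this
        _ = _ := by ring
    · intro z hz
      have hz' : z ∈ ball (0 : ℂ) r := closedBall_subset_ball hr hz
      rw [fn_sub, fn_one hz', hD, fn_hol (Dfun_differentiableOn V hm₁ hm₂) hz']
      exact norm_Dfun_sub_one V hz' (hb z hz').1 (hb z hz').2 hee3 hee3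
  · intro x
    have e1 : p * (1 + (D - 1)) = ((rho q / c : ℝ) : ℂ) • (qh q * D) := by
      apply hol_ext
      intro z _
      have : qh q = ((rho q)⁻¹ : ℂ) • q := rfl
      rw [add_sub_cancel, fn_mul, fn_smul, fn_mul, this, fn_smul, hqz]
      have h1 : (rho q : ℂ) ≠ 0 := by exact_mod_cast hρ.ne'
      have h2 : (c : ℂ) ≠ 0 := by exact_mod_cast hc0.ne'
      push_cast
      field_simp
    rw [e1, map_smul, ContinuousLinearMap.smul_apply, inner_smul_right, re_ofReal_mul]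
    exact mul_nonneg (div_pos hρ hc0).le (hcore x)

end C3N.H65
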