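import Mathlib

/-!
# Abstract operator lemmas for the negative answer (paper, sections 1.3, 1.4)

* `gm` : geometric mean lemma, `k A1 = r`, `k r A2 = 1`, `Re A1, Re A2 ≥ 0`, `exp(-t k) → 0`
  imply `Re r ≥ 0`.
* `norm_le_of_herglotz` : if `1 - λ ψ` is invertible and `Re (1 - λ ψ)⁻¹ ≥ -ε` for all `|λ| < 1`
  then `‖ψ‖ ≤ 4 (1 + ε)`.
* `norm_sq_le_of_acr` : for `P` with `Re P ≥ 0` ... see below.
-/

set_option autoImplicit false

open Complex Metric Set Filter Topology

namespace Pool.Agent.Lib.MP_c3d375_an.Neg.H65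

variable {H : Type*} [NormedAddCommGroup H] [InnerProductSpace ℂ H]

/-- `Re ⟨A x, x⟩ ≥ 0` for all `x`. -/
def Acr (A : H →L[ℂ] H) : Prop := ∀ x, 0 ≤ (inner ℂ x (A x)).re

section gm

variable [CompleteSpace H]

theorem norm_exp_adj (k : H →L[ℂ] H) (t : ℝ) :
    ‖NormedSpace.exp ((-t : ℂ) • ContinuousLinearMap.adjoint k)‖ =
      ‖NormedSpace.exp ((-t : ℂ) • k)‖ := by
  have h : (-t : ℂ) • ContinuousLinearMap.adjoint k = star ((-t : ℂ) • k) := by
    rw [star_smul, ContinuousLinearMap.star_eq_adjoint]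
    congr 1
    simp
  rw [h, ← NormedSpace.star_exp, norm_star]

/-- Geometric mean lemma (paper, 1.4). -/
theorem gm {k r A₁ A₂ : H →L[ℂ] H} (h1 : k * A₁ = r) (h2 : k * r * A₂ = 1)
    (hA₁ : Acr A₁) (hA₂ : Acr A₂)
    (hk : Tendsto (fun t : ℝ => ‖NormedSpace.exp ((-t : ℂ) • k)‖) atTop (𝓝 0)) : Acr r := by
  intro x
  -- the operator `X = r + r*` satisfies `Re ⟨X k* y, y⟩ ≥ 0`
  have key : ∀ y : H, 0 ≤ (inner ℂ y (r (ContinuousLinearMap.adjoint k y))).re +
      (inner ℂ (ContinuousLinearMap.adjoint k y) (r y)).re := by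
    intro y
    have e1 : (inner ℂ (ContinuousLinearMap.adjoint k y)
        (A₁ (ContinuousLinearMap.adjoint k y))).re =
        (inner ℂ y (r (ContinuousLinearMap.adjoint k y))).re := by
      rw [ContinuousLinearMap.adjoint_inner_left]
      rw [← h1]
      rfl
    have e2 : (inner ℂ (ContinuousLinearMap.adjoint (k * r) y)
        (A₂ (ContinuousLinearMap.adjoint (k * r) y))).re =
        (inner ℂ (ContinuousLinearMap.adjoint k y) (r y)).re := by
      rw [ContinuousLinearMap.adjoint_inner_left]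
      have : (k * r) (A₂ (ContinuousLinearMap.adjoint (k * r) y)) =
          ContinuousLinearMap.adjoint (k * r) y := by
        have h3 := congrArg (fun B : H →L[ℂ] H => B (ContinuousLinearMap.adjoint (k * r) y)) h2
        simpa using h3
      rw [this, ContinuousLinearMap.adjoint_inner_right]
      have e3 : (k * r) y = k (r y) := rfl
      rw [e3, ContinuousLinearMap.adjoint_inner_left, ← inner_conj_symm, Complex.conj_re]
    have p1 := hA₁ (ContinuousLinearMap.adjoint k y)
    have p2 := hA₂ (ContinuousLinearMap.adjoint (k * r) y)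
    rw [e1] at p1
    rw [e2] at p2
    linarith
  set K : H →L[ℂ] H := -ContinuousLinearMap.adjoint k with hK
  set y : ℝ → H := fun t => NormedSpace.exp (t • K) x with hy
  have hder : ∀ t : ℝ, HasDerivAt y (K (y t)) t := by
    intro t
    have h := hasDerivAt_exp_smul_const' (𝕂 := ℝ) K t
    have h' := (((ContinuousLinearMap.apply ℂ H x).restrictScalars ℝ).hasFDerivAt).comp_hasDerivAt
      t h
    simpa [hy, Function.comp_def] using h'
  set φ : ℝ → ℝ := fun t => (inner ℂ (y t) (r (y t))).re with hφ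
  have hφd : ∀ t : ℝ, HasDerivAt φ ((inner ℂ (y t) (r (K (y t)))).re +
      (inner ℂ (K (y t)) (r (y t))).re) t := by
    intro t
    have h1' : HasDerivAt (fun t => r (y t)) (r (K (y t))) t :=
      (r.hasFDerivAt.restrictScalars ℝ).comp_hasDerivAt t (hder t)
    have h2' := (hder t).inner ℂ h1'
    have h3' := (Complex.reCLM.hasFDerivAt).comp_hasDerivAt t h2'
    simpa [hφ, Function.comp_def] using h3'
  have hanti : Antitone φ := by
    apply antitone_of_hasDerivAt_nonpos (f' := fun t => (inner ℂ (y t) (r (K (y t)))).re +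
      (inner ℂ (K (y t)) (r (y t))).re)
    · exact hφd
    · intro t
      have := key (y t)
      simp only [hK, neg_apply, map_neg, inner_neg_right, inner_neg_left,
        neg_re]
      simp only [Pi.zero_apply]
      linarith
  have hlim : Tendsto φ atTop (𝓝 0) := by
    have hb : ∀ t, ‖φ t‖ ≤ ‖r‖ * ‖x‖ ^ 2 * ‖NormedSpace.exp ((-t : ℂ) • k)‖ ^ 2 := by
      intro t
      have h1 : ‖y t‖ ≤ ‖NormedSpace.exp ((-t : ℂ) • k)‖ * ‖x‖ := by
        rw [← norm_exp_adj]
        have : (t • K : H →L[ℂ] H) = (-t : ℂ) • ContinuousLinearMap.adjoint k := by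
          rw [hK]
          ext z
          simp
        rw [hy]
        simp only [this]
        exact ContinuousLinearMap.le_opNorm _ _
      calc ‖φ t‖ ≤ ‖inner ℂ (y t) (r (y t))‖ := by
            rw [hφ]; exact Complex.abs_re_le_norm _
        _ ≤ ‖y t‖ * ‖r (y t)‖ := norm_inner_le_norm _ _
        _ ≤ ‖y t‖ * (‖r‖ * ‖y t‖) := by gcongr; exact r.le_opNorm _
        _ = ‖r‖ * ‖y t‖ ^ 2 := by ring
        _ ≤ ‖r‖ * (‖NormedSpace.exp ((-t : ℂ) • k)‖ * ‖x‖) ^ 2 := by gcongr
        _ = _ := by ring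
    have hl : Tendsto (fun t : ℝ => ‖r‖ * ‖x‖ ^ 2 * ‖NormedSpace.exp ((-t : ℂ) • k)‖ ^ 2) atTop
        (𝓝 0) := by
      have := (hk.pow 2).const_mul (‖r‖ * ‖x‖ ^ 2)
      simpa using this
    exact squeeze_zero_norm hb hl
  have h0 : 0 ≤ φ 0 := by
    apply le_of_tendsto hlim
    filter_upwards [eventually_ge_atTop 0] with t ht using hanti ht
  simpa [hφ, hy] using h0

end gm

end Pool.Agent.Lib.MP_c3d375_an.Neg.H65
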