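import Pool.Agent.Lib.MP_c3d375_an.Neg.Iface
import Pool.Agent.Lib.MP_c3d375_an.Neg.H65.Gm

/-!
# GM (paper 1.4): geometric means in a bounded calculus
-/

set_option autoImplicit false

open Complex Metric Set Filter Topology ComplexConjugate

namespace C3N.H65

theorem norm_exp_le {H : Type} [NormedAddCommGroup H] [InnerProductSpace ℂ H] [CompleteSpace H]
    {r : ℝ} (Φ : Hol r →ₐ[ℂ] (H →L[ℂ] H)) {C : ℝ} (hr : 1 < r)
    (hC : ∀ (φ : Hol r) (M : ℝ), (∀ z ∈ closedBall (0 : ℂ) 1, ‖fn φ z‖ ≤ M) → ‖Φ φ‖ ≤ C * M)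
    (κ : Hol r) {c R : ℝ} (hc : ∀ z ∈ closedBall (0 : ℂ) 1, c ≤ (fn κ z).re)
    (hR : ∀ z ∈ closedBall (0 : ℂ) 1, ‖fn κ z‖ ≤ R) {t : ℝ} (ht : 0 ≤ t) :
    ‖NormedSpace.exp ((-t : ℂ) • Φ κ)‖ ≤ C * Real.exp (-t * c) := by
  have hsub : closedBall (0 : ℂ) 1 ⊆ ball 0 r := closedBall_subset_ball hr
  -- partial sums
  set P : ℕ → Hol r := fun N => ∑ n ∈ Finset.range N, ((n.factorial : ℂ)⁻¹) • ((-t : ℂ) • κ) ^ n
    with hP
  have hPΦ : ∀ N, Φ (P N) = ∑ n ∈ Finset.range N, ((n.factorial : ℂ)⁻¹) • ((-t : ℂ) • Φ κ) ^ n := by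
    intro N
    simp only [hP, map_sum, map_smul, map_pow]
  have hfn : ∀ N, ∀ z ∈ closedBall (0 : ℂ) 1, fn (P N) z =
      ∑ n ∈ Finset.range N, (-t * fn κ z) ^ n / n.factorial := by
    intro N z hz
    induction N with
    | zero =>
      simp only [hP, Finset.range_zero, Finset.sum_empty]
      rw [fn_apply _ (hsub hz)]; rfl
    | succ N ih =>
      have : P (N + 1) = P N + ((N.factorial : ℂ)⁻¹) • ((-t : ℂ) • κ) ^ N := by
        simp only [hP, Finset.sum_range_succ]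
      rw [this, fn_add, ih, Finset.sum_range_succ, fn_smul, fn_pow _ _ (hsub hz), fn_smul]
      congr 1
      rw [div_eq_inv_mul]
  have hR0 : 0 ≤ R := (norm_nonneg _).trans (hR 0 (by simp))
  -- convergence
  have hlim : Tendsto (fun N => Φ (P N)) atTop (𝓝 (NormedSpace.exp ((-t : ℂ) • Φ κ))) := by
    simp only [hPΦ]
    have h := NormedSpace.exp_series_hasSum_exp' (𝕂 := ℂ) ((-t : ℂ) • Φ κ)
    exact h.tendsto_sum_nat
  have hbound : ∀ᶠ N : ℕ in atTop, ‖Φ (P N)‖ ≤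
      C * (Real.exp (-t * c) + (t * R) ^ N / N.factorial * 2) := by
    have hN : ∀ᶠ N : ℕ in atTop, 2 * (t * R) ≤ N := by
      have := tendsto_natCast_atTop_atTop (R := ℝ)
      exact this.eventually_ge_atTop _
    filter_upwards [hN] with N hN
    apply hC
    intro z hz
    rw [hfn N z hz]
    have hw : ‖-(t : ℂ) * fn κ z‖ ≤ t * R := by
      rw [norm_mul, norm_neg, Complex.norm_real, Real.norm_of_nonneg ht]
      exact mul_le_mul_of_nonneg_left (hR z hz) ht
    have h1 : ‖-(t : ℂ) * fn κ z‖ / N.succ ≤ 1 / 2 := by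
      rw [div_le_iff₀ (by positivity)]
      push_cast
      linarith
    have h2 := Complex.exp_bound' h1
    have h3 : ‖exp (-(t : ℂ) * fn κ z)‖ ≤ Real.exp (-t * c) := by
      rw [Complex.norm_exp]
      apply Real.exp_le_exp.2
      have : (-(t : ℂ) * fn κ z).re = -t * (fn κ z).re := by
        rw [← Complex.ofReal_neg, Complex.re_ofReal_mul]
      rw [this]
      nlinarith [hc z hz]
    have h4 : ‖∑ m ∈ Finset.range N, (-(t : ℂ) * fn κ z) ^ m / m.factorial‖ ≤
        ‖exp (-(t : ℂ) * fn κ z)‖ +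
          ‖exp (-(t : ℂ) * fn κ z) - ∑ m ∈ Finset.range N, (-(t : ℂ) * fn κ z) ^ m / m.factorial‖ := by
      have := norm_sub_le (exp (-(t : ℂ) * fn κ z)) (exp (-(t : ℂ) * fn κ z) -
        ∑ m ∈ Finset.range N, (-(t : ℂ) * fn κ z) ^ m / m.factorial)
      simpa using this
    have h5 : ‖-(t : ℂ) * fn κ z‖ ^ N / N.factorial * 2 ≤ (t * R) ^ N / N.factorial * 2 := by
      gcongr
    linarith
  have hl2 : Tendsto (fun N : ℕ => C * (Real.exp (-t * c) + (t * R) ^ N / N.factorial * 2)) atTop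
      (𝓝 (C * (Real.exp (-t * c) + 0 * 2))) := by
    apply Tendsto.const_mul
    apply Tendsto.const_add
    apply Tendsto.mul_const
    exact FloorSemiring.tendsto_pow_div_factorial_atTop (t * R)
  have := le_of_tendsto_of_tendsto hlim.norm hl2 hbound
  simpa using this

theorem gm_st : GMStatement := by
  intro H _ _ _ r hr Φ ⟨C, hC⟩ A1 A2 rr κ h1 h2 hκ hA1 hA2
  have hsub : closedBall (0 : ℂ) 1 ⊆ ball 0 r := closedBall_subset_ball hr
  have hcont : ContinuousOn (fn κ) (closedBall 0 1) :=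
    (fn_differentiableOn κ).continuousOn.mono hsub
  have hcpt : IsCompact (closedBall (0 : ℂ) 1) := isCompact_closedBall _ _
  have hne : (closedBall (0 : ℂ) 1).Nonempty := ⟨0, by simp⟩
  obtain ⟨z1, hz1, hmin⟩ := hcpt.exists_isMinOn hne
    (Complex.continuous_re.comp_continuousOn hcont)
  obtain ⟨z2, hz2, hmax⟩ := hcpt.exists_isMaxOn hne hcont.norm
  set c : ℝ := (fn κ z1).re with hc
  have hc0 : 0 < c := hκ z1 hz1
  have hexp : ∀ t : ℝ, 0 ≤ t → ‖NormedSpace.exp ((-t : ℂ) • Φ κ)‖ ≤ C * Real.exp (-t * c) :=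
    fun t ht => norm_exp_le Φ hr hC κ (fun z hz => hmin hz) (fun z hz => hmax hz) ht
  have hdecay : Tendsto (fun t : ℝ => ‖NormedSpace.exp ((-t : ℂ) • Φ κ)‖) atTop (𝓝 0) := by
    have hl : Tendsto (fun t : ℝ => C * Real.exp (-t * c)) atTop (𝓝 (C * 0)) := by
      apply Tendsto.const_mul
      apply Real.tendsto_exp_atBot.comp
      have : (fun t : ℝ => -t * c) = fun t => -(t * c) := by funext t; ring
      rw [this]
      exact tendsto_neg_atTop_atBot.comp (tendsto_id.atTop_mul_const hc0)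
    rw [mul_zero] at hl
    refine squeeze_zero' (Eventually.of_forall fun t => norm_nonneg _) ?_ hl
    filter_upwards [eventually_ge_atTop 0] with t ht using hexp t ht
  have e1 : Φ κ * Φ A1 = Φ rr := by
    rw [← map_mul, ← h1]
    congr 1
    calc κ * (rr ^ 2 * A2) = rr * (A2 * rr * κ) := by ring
      _ = rr := by rw [h2, mul_one]
  have e2 : Φ κ * Φ rr * Φ A2 = 1 := by
    rw [← map_mul, ← map_mul, ← map_one Φ]
    congr 1
    calc κ * rr * A2 = A2 * rr * κ := by ring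
      _ = 1 := h2
  exact Pool.Agent.Lib.MP_c3d375_an.Neg.H65.gm e1 e2 hA1 hA2 hdecay

end C3N.H65
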