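import Pool.Agent.Lib.MP_c3d375_an.Neg.Iface

/-!
# Common core of CRU and MI (paper 1.5, 1.6)

`core` : if `Re Φ(h² + 1 + m₁) ≥ 0`, `Re Φ(h⁻² + 1 + m₂) ≥ 0` with small `m₁, m₂`, then
`Re Φ(h D) ≥ 0`, `D = √(1 + m₁ j) / √(1 + m₂ h² j)`, `j = 1/(1+h²)`.
`pos1`, `pos2` : the two inequalities for `h = q̂` and the explicit `mu1`, `mu2`.
-/

set_option autoImplicit false

open Complex Metric Set Filter Topology ComplexConjugate
open Pool.Agent.Lib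
open Pool.Agent.Lib.MP_c3d375_an (sq_sq sq_re_pos hasDerivAt_sq)

namespace C3N.H65

/-- values of `h`, `j = 1/(1+h²)` and `qi = 1/h` on the disc of radius `r` -/
structure Val {r : ℝ} (h j qi : Hol r) : Prop where
  hre : ∀ z ∈ ball (0 : ℂ) r, 0 < (fn h z).re
  hsq : ∀ z ∈ ball (0 : ℂ) r, 0 < ((fn h z) ^ 2).re
  hj : ∀ z ∈ ball (0 : ℂ) r, fn j z = (1 + (fn h z) ^ 2)⁻¹
  hqi : ∀ z ∈ ball (0 : ℂ) r, fn qi z = (fn h z)⁻¹

/-! ### Scalar facts -/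

theorem one_le_norm {H : ℂ} (hH : 0 < H.re) : 1 ≤ ‖1 + H‖ ∧ ‖H‖ ≤ ‖1 + H‖ := by
  constructor
  · rw [← sq_le_sq₀ (by norm_num) (norm_nonneg _), Complex.sq_norm, Complex.normSq_apply]
    simp only [add_re, one_re, add_im, one_im, zero_add]
    nlinarith [mul_self_nonneg H.im]
  · rw [← sq_le_sq₀ (norm_nonneg _) (norm_nonneg _), Complex.sq_norm, Complex.sq_norm,
      Complex.normSq_apply, Complex.normSq_apply]
    simp only [add_re, one_re, add_im, one_im, zero_add]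
    nlinarith

theorem norm_j_le {H : ℂ} (hH : 0 < H.re) : ‖(1 + H)⁻¹‖ ≤ 1 ∧ ‖H * (1 + H)⁻¹‖ ≤ 1 := by
  obtain ⟨h1, h2⟩ := one_le_norm hH
  constructor
  · rw [norm_inv]
    exact inv_le_one_of_one_le₀ h1
  · rw [norm_mul, norm_inv, ← div_eq_mul_inv]
    exact div_le_one_of_le₀ h2 (norm_nonneg _)

theorem sq_sub_one {w : ℂ} (hw : ‖w‖ ≤ 1 / 10) :
    0 < (1 + w).re ∧ MP_c3d375_an.sq (1 + w) ^ 2 = 1 + w ∧ ‖MP_c3d375_an.sq (1 + w) - 1‖ ≤ ‖w‖ := by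
  have hre : 0 < (1 + w).re := by
    have := Complex.abs_re_le_norm w
    simp only [add_re, one_re]
    have := neg_le_of_abs_le (this.trans hw)
    linarith
  have hne : (1 : ℂ) + w ≠ 0 := by
    intro h
    rw [h] at hre
    simp at hre
  have h1 := sq_sq hne
  have h2 := sq_re_pos hre
  refine ⟨hre, h1, ?_⟩
  have h3 : (MP_c3d375_an.sq (1 + w) - 1) * (MP_c3d375_an.sq (1 + w) + 1) = w := by
    have : (MP_c3d375_an.sq (1 + w) - 1) * (MP_c3d375_an.sq (1 + w) + 1) = MP_c3d375_an.sq (1 + w) ^ 2 - 1 := by ring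
    rw [this, h1]; ring
  have h4 : 1 ≤ ‖MP_c3d375_an.sq (1 + w) + 1‖ := by
    calc (1 : ℝ) ≤ (MP_c3d375_an.sq (1 + w) + 1).re := by simp only [add_re, one_re]; linarith
      _ ≤ _ := Complex.re_le_norm _
  calc ‖MP_c3d375_an.sq (1 + w) - 1‖ = ‖MP_c3d375_an.sq (1 + w) - 1‖ * 1 := (mul_one _).symm
    _ ≤ ‖MP_c3d375_an.sq (1 + w) - 1‖ * ‖MP_c3d375_an.sq (1 + w) + 1‖ := by gcongr
    _ = ‖w‖ := by rw [← norm_mul, h3]

theorem ne_of_sub_one {s : ℂ} (hs : ‖s - 1‖ ≤ 1 / 10) : s ≠ 0 := by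
  intro h
  rw [h] at hs
  norm_num at hs

/-- `Re (h j / (s₁ s₂)) > 0` for `h` in the sector and `s₁, s₂` near `1` -/
theorem kappa_re_pos {h s₁ s₂ : ℂ} (h1 : 0 < h.re) (h2 : 0 < (h ^ 2).re)
    (hs₁ : ‖s₁ - 1‖ ≤ 1 / 10) (hs₂ : ‖s₂ - 1‖ ≤ 1 / 10) :
    0 < (h * (1 + h ^ 2)⁻¹ / (s₁ * s₂)).re := by
  have hne : h ≠ 0 := by intro h0; rw [h0] at h1; simp at h1
  have hne2 : 1 + h ^ 2 ≠ 0 := by
    intro h0
    have := congrArg Complex.re h0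
    simp only [add_re, one_re, zero_re] at this
    linarith
  have hs1 := ne_of_sub_one hs₁
  have hs2 := ne_of_sub_one hs₂
  set k : ℂ := h + h⁻¹ with hk
  set u : ℂ := s₁ * s₂ with hu
  have hu1 : ‖u - 1‖ ≤ 21 / 100 := by
    have : u - 1 = (s₁ - 1) * (s₂ - 1) + (s₁ - 1) + (s₂ - 1) := by rw [hu]; ring
    rw [this]
    calc _ ≤ ‖(s₁ - 1) * (s₂ - 1)‖ + ‖s₁ - 1‖ + ‖s₂ - 1‖ := norm_add₃_le
      _ ≤ 1 / 10 * (1 / 10) + 1 / 10 + 1 / 10 := by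
        rw [norm_mul]; gcongr
      _ = _ := by norm_num
  have hure : 79 / 100 ≤ u.re := by
    have := (Complex.abs_re_le_norm (u - 1)).trans hu1
    simp only [sub_re, one_re] at this
    have := neg_le_of_abs_le this
    linarith
  have huim : |u.im| ≤ 21 / 100 := by
    have := (Complex.abs_im_le_norm (u - 1)).trans hu1
    simpa using this
  have hN : 0 < Complex.normSq h := Complex.normSq_pos.2 hne
  have hyx : |h.im| ≤ h.re := by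
    have : (h ^ 2).re = h.re ^ 2 - h.im ^ 2 := by simp [pow_two]
    rw [this] at h2
    exact (abs_lt_of_sq_lt_sq (by linarith) h1.le).le
  have hkre : k.re = h.re * (1 + (Complex.normSq h)⁻¹) := by
    simp only [hk, add_re, inv_re]
    field_simp
  have hkim : k.im = h.im * (1 - (Complex.normSq h)⁻¹) := by
    simp only [hk, add_im, inv_im]
    field_simp
    ring
  have hkpos : 0 < k.re := by rw [hkre]; positivity
  have hkim' : |k.im| ≤ k.re := by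
    rw [hkim, hkre, abs_mul]
    have : |1 - (Complex.normSq h)⁻¹| ≤ 1 + (Complex.normSq h)⁻¹ := by
      rw [abs_le]
      have : 0 < (Complex.normSq h)⁻¹ := by positivity
      constructor <;> linarith
    exact mul_le_mul hyx this (abs_nonneg _) h1.le
  have hX : 0 < (k * u).re := by
    rw [mul_re]
    have h3 : k.im * u.im ≤ |k.im| * |u.im| := by
      rw [← abs_mul]; exact le_abs_self _
    have h4 : |k.im| * |u.im| ≤ k.re * (21 / 100) := mul_le_mul hkim' huim (abs_nonneg _) hkpos.le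
    nlinarith
  have e : h * (1 + h ^ 2)⁻¹ / (s₁ * s₂) = (k * u)⁻¹ := by
    have hk2 : k = (1 + h ^ 2) / h := by rw [hk]; field_simp; ring
    rw [hk2, hu]
    field_simp
  rw [e, inv_re]
  have hXne : k * u ≠ 0 := by intro h0; rw [h0] at hX; simp at hX
  have := Complex.normSq_pos.2 hXne
  positivity

/-! ### The core -/

/-- `D = √(1 + m₁ j) / √(1 + m₂ h² j)` -/
noncomputable def Dfun {r : ℝ} (h j m₁ m₂ : Hol r) (z : ℂ) : ℂ :=
  MP_c3d375_an.sq (1 + fn m₁ z * fn j z) / MP_c3d375_an.sq (1 + fn m₂ z * ((fn h z) ^ 2 * fn j z))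

section core

variable {r : ℝ} {h j qi m₁ m₂ : Hol r}

theorem small1 (V : Val h j qi) {z : ℂ} (hz : z ∈ ball (0 : ℂ) r) {δ : ℝ}
    (hm : ‖fn m₁ z‖ ≤ δ) : ‖fn m₁ z * fn j z‖ ≤ δ := by
  rw [norm_mul, V.hj z hz]
  calc _ ≤ δ * 1 := mul_le_mul hm (norm_j_le (V.hsq z hz)).1 (norm_nonneg _)
        ((norm_nonneg _).trans hm)
    _ = δ := mul_one _

theorem small2 (V : Val h j qi) {z : ℂ} (hz : z ∈ ball (0 : ℂ) r) {δ : ℝ}
    (hm : ‖fn m₂ z‖ ≤ δ) : ‖fn m₂ z * ((fn h z) ^ 2 * fn j z)‖ ≤ δ := by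
  rw [norm_mul, V.hj z hz]
  calc _ ≤ δ * 1 := mul_le_mul hm (norm_j_le (V.hsq z hz)).2 (norm_nonneg _)
        ((norm_nonneg _).trans hm)
    _ = δ := mul_one _

theorem differentiableOn_sq_comp {f : ℂ → ℂ} (hf : DifferentiableOn ℂ f (ball 0 r))
    (hre : ∀ z ∈ ball (0 : ℂ) r, 0 < (f z).re) :
    DifferentiableOn ℂ (fun z => MP_c3d375_an.sq (f z)) (ball 0 r) := by
  intro z hz
  have h1 := (hasDerivAt_sq (hre z hz)).differentiableAt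
  exact h1.comp_differentiableWithinAt z (hf z hz)

theorem Dfun_differentiableOn (V : Val h j qi) (hm₁ : ∀ z ∈ ball (0 : ℂ) r, ‖fn m₁ z‖ ≤ 1 / 10)
    (hm₂ : ∀ z ∈ ball (0 : ℂ) r, ‖fn m₂ z‖ ≤ 1 / 10) :
    DifferentiableOn ℂ (Dfun h j m₁ m₂) (ball 0 r) := by
  have d1 : DifferentiableOn ℂ (fun z => 1 + fn m₁ z * fn j z) (ball 0 r) :=
    ((fn_differentiableOn m₁).mul (fn_differentiableOn j)).const_add 1
  have d2 : DifferentiableOn ℂ (fun z => 1 + fn m₂ z * ((fn h z) ^ 2 * fn j z)) (ball 0 r) :=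
    ((fn_differentiableOn m₂).mul (((fn_differentiableOn h).pow 2).mul
      (fn_differentiableOn j))).const_add 1
  have r1 : ∀ z ∈ ball (0 : ℂ) r, 0 < (1 + fn m₁ z * fn j z).re := fun z hz =>
    (sq_sub_one (small1 V hz (hm₁ z hz))).1
  have r2 : ∀ z ∈ ball (0 : ℂ) r, 0 < (1 + fn m₂ z * ((fn h z) ^ 2 * fn j z)).re := fun z hz =>
    (sq_sub_one (small2 V hz (hm₂ z hz))).1
  refine (differentiableOn_sq_comp d1 r1).div (differentiableOn_sq_comp d2 r2) fun z hz => ?_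
  have h3 := small2 V hz (hm₂ z hz)
  exact ne_of_sub_one ((sq_sub_one h3).2.2.trans h3)

/-- `|D - 1| ≤ 2 (|m₁| + |m₂|)` -/
theorem norm_Dfun_sub_one (V : Val h j qi) {z : ℂ} (hz : z ∈ ball (0 : ℂ) r) {δ₁ δ₂ : ℝ}
    (hm₁ : ‖fn m₁ z‖ ≤ δ₁) (hm₂ : ‖fn m₂ z‖ ≤ δ₂) (h₁ : δ₁ ≤ 1 / 10) (h₂ : δ₂ ≤ 1 / 10) :
    ‖Dfun h j m₁ m₂ z - 1‖ ≤ 2 * (δ₁ + δ₂) := by
  have p1 := small1 V hz hm₁
  have p2 := small2 V hz hm₂
  have q1 := (sq_sub_one (p1.trans h₁)).2.2.trans p1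
  have q2 := (sq_sub_one (p2.trans h₂)).2.2.trans p2
  set s₁ := MP_c3d375_an.sq (1 + fn m₁ z * fn j z) with hs₁
  set s₂ := MP_c3d375_an.sq (1 + fn m₂ z * ((fn h z) ^ 2 * fn j z)) with hs₂
  have hne : s₂ ≠ 0 := ne_of_sub_one (q2.trans h₂)
  have e : Dfun h j m₁ m₂ z - 1 = ((s₁ - 1) - (s₂ - 1)) / s₂ := by
    rw [Dfun, ← hs₁, ← hs₂]
    field_simp
    ring
  have hs₂' : 1 / 2 ≤ ‖s₂‖ := by
    have := norm_sub_norm_le (1 : ℂ) (1 - s₂)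
    rw [norm_one, sub_sub_cancel, norm_sub_rev] at this
    linarith
  rw [e, norm_div, div_le_iff₀ (norm_pos_iff.2 hne)]
  have h0 : 0 ≤ δ₁ := (norm_nonneg _).trans hm₁
  have h0' : 0 ≤ δ₂ := (norm_nonneg _).trans hm₂
  calc ‖(s₁ - 1) - (s₂ - 1)‖ ≤ ‖s₁ - 1‖ + ‖s₂ - 1‖ := norm_sub_le _ _
    _ ≤ δ₁ + δ₂ := by gcongr
    _ ≤ 2 * (δ₁ + δ₂) * ‖s₂‖ := by nlinarith

theorem core (hGM : GMStatement) {H : Type} [NormedAddCommGroup H] [InnerProductSpace ℂ H]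
    [CompleteSpace H] (hr : 1 < r) (Φ : Hol r →ₐ[ℂ] (H →L[ℂ] H))
    (hbdd : ∃ C : ℝ, ∀ (φ : Hol r) (M : ℝ), (∀ z ∈ closedBall (0 : ℂ) 1, ‖fn φ z‖ ≤ M) →
      ‖Φ φ‖ ≤ C * M) (V : Val h j qi) (hm₁ : ∀ z ∈ ball (0 : ℂ) r, ‖fn m₁ z‖ ≤ 1 / 10)
    (hm₂ : ∀ z ∈ ball (0 : ℂ) r, ‖fn m₂ z‖ ≤ 1 / 10)
    (hA₁ : ∀ x : H, 0 ≤ (inner ℂ x (Φ (h ^ 2 + 1 + m₁) x)).re)
    (hA₂ : ∀ x : H, 0 ≤ (inner ℂ x (Φ (qi ^ 2 + 1 + m₂) x)).re) :
    ∀ x : H, 0 ≤ (inner ℂ x (Φ (h * hol r (Dfun h j m₁ m₂)) x)).re := by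
  have hD := Dfun_differentiableOn V hm₁ hm₂
  set κf : ℂ → ℂ := fun z => fn h z * (1 + (fn h z) ^ 2)⁻¹ /
    (MP_c3d375_an.sq (1 + fn m₁ z * fn j z) * MP_c3d375_an.sq (1 + fn m₂ z * ((fn h z) ^ 2 * fn j z))) with hκf
  have hs : ∀ z ∈ ball (0 : ℂ) r, ‖MP_c3d375_an.sq (1 + fn m₁ z * fn j z) - 1‖ ≤ 1 / 10 ∧
      ‖MP_c3d375_an.sq (1 + fn m₂ z * ((fn h z) ^ 2 * fn j z)) - 1‖ ≤ 1 / 10 ∧
      MP_c3d375_an.sq (1 + fn m₁ z * fn j z) ^ 2 = 1 + fn m₁ z * fn j z ∧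
      MP_c3d375_an.sq (1 + fn m₂ z * ((fn h z) ^ 2 * fn j z)) ^ 2 = 1 + fn m₂ z * ((fn h z) ^ 2 * fn j z) := by
    intro z hz
    have p1 := small1 V hz (hm₁ z hz)
    have p2 := small2 V hz (hm₂ z hz)
    exact ⟨(sq_sub_one p1).2.2.trans p1, (sq_sub_one p2).2.2.trans p2, (sq_sub_one p1).2.1,
      (sq_sub_one p2).2.1⟩
  have hne1 : ∀ z ∈ ball (0 : ℂ) r, 1 + (fn h z) ^ 2 ≠ 0 := by
    intro z hz h0
    have := congrArg Complex.re h0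
    simp only [add_re, one_re, zero_re] at this
    have := V.hsq z hz
    linarith
  have hhne : ∀ z ∈ ball (0 : ℂ) r, fn h z ≠ 0 := by
    intro z hz h0
    have := V.hre z hz
    rw [h0] at this
    simp at this
  have hκd : DifferentiableOn ℂ κf (ball 0 r) := by
    have d1 : DifferentiableOn ℂ (fun z => 1 + fn m₁ z * fn j z) (ball 0 r) :=
      ((fn_differentiableOn m₁).mul (fn_differentiableOn j)).const_add 1
    have d2 : DifferentiableOn ℂ (fun z => 1 + fn m₂ z * ((fn h z) ^ 2 * fn j z)) (ball 0 r) :=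
      ((fn_differentiableOn m₂).mul (((fn_differentiableOn h).pow 2).mul
        (fn_differentiableOn j))).const_add 1
    have r1 : ∀ z ∈ ball (0 : ℂ) r, 0 < (1 + fn m₁ z * fn j z).re := fun z hz =>
      (sq_sub_one (small1 V hz (hm₁ z hz))).1
    have r2 : ∀ z ∈ ball (0 : ℂ) r, 0 < (1 + fn m₂ z * ((fn h z) ^ 2 * fn j z)).re := fun z hz =>
      (sq_sub_one (small2 V hz (hm₂ z hz))).1
    have d3 : DifferentiableOn ℂ (fun z => (1 + (fn h z) ^ 2)⁻¹) (ball 0 r) :=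
      (((fn_differentiableOn h).pow 2).const_add 1).inv hne1
    refine ((fn_differentiableOn h).mul d3).div ((differentiableOn_sq_comp d1 r1).mul
      (differentiableOn_sq_comp d2 r2)) fun z hz => ?_
    exact mul_ne_zero (ne_of_sub_one (hs z hz).1) (ne_of_sub_one (hs z hz).2.1)
  refine hGM H r hr Φ hbdd (h ^ 2 + 1 + m₁) (qi ^ 2 + 1 + m₂) (h * hol r (Dfun h j m₁ m₂))
    (hol r κf) ?_ ?_ ?_ hA₁ hA₂
  · apply hol_ext
    intro z hz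
    obtain ⟨_, q2, q3, q4⟩ := hs z hz
    have hs2 := ne_of_sub_one q2
    simp only [fn_mul, fn_add, fn_pow _ _ hz, fn_one hz, fn_hol hD hz, V.hqi z hz]
    rw [Dfun]
    have hj := V.hj z hz
    have hh := hhne z hz
    have h1 := hne1 z hz
    set s₁ := MP_c3d375_an.sq (1 + fn m₁ z * fn j z)
    set s₂ := MP_c3d375_an.sq (1 + fn m₂ z * ((fn h z) ^ 2 * fn j z))
    rw [hj] at q3 q4
    have q3' : s₁ ^ 2 * (1 + (fn h z) ^ 2) = 1 + (fn h z) ^ 2 + fn m₁ z := by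
      rw [q3]; field_simp
    have q4' : s₂ ^ 2 * (1 + (fn h z) ^ 2) = 1 + (fn h z) ^ 2 + fn m₂ z * (fn h z) ^ 2 := by
      rw [q4]; field_simp
    have e1 : ((fn h z)⁻¹ ^ 2 + 1 + fn m₂ z) = s₂ ^ 2 * (1 + (fn h z) ^ 2) / (fn h z) ^ 2 := by
      rw [q4']; field_simp
    rw [e1]
    have : (fn h z * (s₁ / s₂)) ^ 2 * (s₂ ^ 2 * (1 + (fn h z) ^ 2) / (fn h z) ^ 2) =
        s₁ ^ 2 * (1 + (fn h z) ^ 2) := by field_simp
    rw [this, q3']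
    ring
  · apply hol_ext
    intro z hz
    obtain ⟨q1, q2, q3, q4⟩ := hs z hz
    have hs1 := ne_of_sub_one q1
    have hs2 := ne_of_sub_one q2
    simp only [fn_mul, fn_add, fn_pow _ _ hz, fn_one hz, fn_hol hD hz, fn_hol hκd hz, V.hqi z hz]
    rw [Dfun, hκf]
    simp only
    have hj := V.hj z hz
    have hh := hhne z hz
    have h1 := hne1 z hz
    set s₁ := MP_c3d375_an.sq (1 + fn m₁ z * fn j z)
    set s₂ := MP_c3d375_an.sq (1 + fn m₂ z * ((fn h z) ^ 2 * fn j z))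
    rw [hj] at q3 q4
    have q4' : s₂ ^ 2 * (1 + (fn h z) ^ 2) = 1 + (fn h z) ^ 2 + fn m₂ z * (fn h z) ^ 2 := by
      rw [q4]; field_simp
    have e1 : ((fn h z)⁻¹ ^ 2 + 1 + fn m₂ z) = s₂ ^ 2 * (1 + (fn h z) ^ 2) / (fn h z) ^ 2 := by
      rw [q4']; field_simp
    rw [e1]
    field_simp
  · intro z hz
    have hz' : z ∈ ball (0 : ℂ) r := closedBall_subset_ball hr hz
    rw [fn_hol hκd hz']
    exact kappa_re_pos (V.hre z hz') (V.hsq z hz') (hs z hz').1 (hs z hz').2.1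

end core

end C3N.H65
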